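import Mathlib

/-!
# `H`-selfadjoint square roots of `X^{[*]}X` with prescribed kernel (MP_154e02_al)

Over `ℝ` and over `ℂ` there are `H`, `X`, `Y` with `Y ^ 2 = X^{[*]} X` and `ker Y = ker X` such
that no `H`-selfadjoint matrix squares to `X^{[*]} X`.
-/

namespace Pool.Agent.Results.MP_154e02_al.NoSelfadjointRoot

open Matrix

/-- The `H`-adjoint `X^{[*]} = H⁻¹ X* H`. -/
noncomputable def hAdj {𝕜 : Type} [RCLike 𝕜] {n : ℕ} (H X : Matrix (Fin n) (Fin n) 𝕜) :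
    Matrix (Fin n) (Fin n) 𝕜 :=
  H⁻¹ * Xᴴ * H

/-- `A` is `H`-selfadjoint: `A^{[*]} = A`. -/
def IsHSelfadjoint {𝕜 : Type} [RCLike 𝕜] {n : ℕ} (H A : Matrix (Fin n) (Fin n) 𝕜) : Prop :=
  hAdj H A = A

variable (𝕜 : Type) [RCLike 𝕜]

/-- `H = diag(1,1,-1,-1)`. -/
def H4 : Matrix (Fin 4) (Fin 4) 𝕜 :=
  !![1, 0, 0, 0; 0, 1, 0, 0; 0, 0, -1, 0; 0, 0, 0, -1]

def X4 : Matrix (Fin 4) (Fin 4) 𝕜 :=
  !![0, 0, 2, 0; 0, 0, 0, 2; 1, 0, 0, 0; 0, 1, 0, 0]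

def Y4 : Matrix (Fin 4) (Fin 4) 𝕜 :=
  !![0, 1, 0, 0; -1, 0, 0, 0; 0, 0, 0, 2; 0, 0, -2, 0]

def M4 : Matrix (Fin 4) (Fin 4) 𝕜 :=
  !![-1, 0, 0, 0; 0, -1, 0, 0; 0, 0, -4, 0; 0, 0, 0, -4]

theorem H4_mul_self : H4 𝕜 * H4 𝕜 = 1 := by
  ext i j
  fin_cases i <;> fin_cases j <;> simp [H4, Matrix.mul_apply, Fin.sum_univ_four]

theorem H4_inv : (H4 𝕜)⁻¹ = H4 𝕜 := Matrix.inv_eq_right_inv (H4_mul_self 𝕜)

theorem H4_herm : (H4 𝕜)ᴴ = H4 𝕜 := by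
  ext i j
  fin_cases i <;> fin_cases j <;> simp [H4, Matrix.conjTranspose_apply]

theorem hAdj_X4 : hAdj (H4 𝕜) (X4 𝕜) * X4 𝕜 = M4 𝕜 := by
  rw [hAdj, H4_inv]
  have hX : (X4 𝕜)ᴴ = !![0, 0, 1, 0; 0, 0, 0, 1; 2, 0, 0, 0; 0, 2, 0, 0] := by
    ext i j
    fin_cases i <;> fin_cases j <;> simp [X4, Matrix.conjTranspose_apply]
  rw [hX]
  ext i j
  fin_cases i <;> fin_cases j <;>
    simp [H4, X4, M4, Matrix.mul_apply, Fin.sum_univ_four] <;> norm_num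

theorem Y4_sq : Y4 𝕜 * Y4 𝕜 = M4 𝕜 := by
  ext i j
  fin_cases i <;> fin_cases j <;>
    simp [Y4, M4, Matrix.mul_apply, Fin.sum_univ_four] <;> norm_num

theorem X4_ker (v : Fin 4 → 𝕜) (h : X4 𝕜 *ᵥ v = 0) : v = 0 := by
  have h0 := congrFun h 0
  have h1 := congrFun h 1
  have h2 := congrFun h 2
  have h3 := congrFun h 3
  simp [X4, Matrix.mulVec, dotProduct, Fin.sum_univ_four] at h0 h1 h2 h3
  ext i
  fin_cases i <;> simp_all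

theorem Y4_ker (v : Fin 4 → 𝕜) (h : Y4 𝕜 *ᵥ v = 0) : v = 0 := by
  have h0 := congrFun h 0
  have h1 := congrFun h 1
  have h2 := congrFun h 2
  have h3 := congrFun h 3
  simp [Y4, Matrix.mulVec, dotProduct, Fin.sum_univ_four] at h0 h1 h2 h3
  ext i
  fin_cases i <;> simp_all

theorem no_root (A : Matrix (Fin 4) (Fin 4) 𝕜) (hA : IsHSelfadjoint (H4 𝕜) A)
    (hsq : A * A = M4 𝕜) : False := by
  have hcomm : A * M4 𝕜 = M4 𝕜 * A := by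
    rw [← hsq, mul_assoc]
  have e02 := congrFun (congrFun hcomm 0) 2
  have e03 := congrFun (congrFun hcomm 0) 3
  simp [M4, Matrix.mul_apply, Fin.sum_univ_four] at e02 e03
  have a02 : A 0 2 = 0 := by
    have : (3 : 𝕜) * A 0 2 = 0 := by linear_combination e02
    rcases mul_eq_zero.1 this with h | h
    · norm_num at h
    · exact h
  have a03 : A 0 3 = 0 := by
    have : (3 : 𝕜) * A 0 3 = 0 := by linear_combination e03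
    rcases mul_eq_zero.1 this with h | h
    · norm_num at h
    · exact h
  have s := congrFun (congrFun hsq 0) 0
  simp [M4, Matrix.mul_apply, Fin.sum_univ_four, a02, a03] at s
  unfold IsHSelfadjoint at hA
  rw [hAdj, H4_inv] at hA
  have hA' : Aᴴ * H4 𝕜 = H4 𝕜 * A := by
    calc Aᴴ * H4 𝕜 = (H4 𝕜 * H4 𝕜) * (Aᴴ * H4 𝕜) := by rw [H4_mul_self, one_mul]
      _ = H4 𝕜 * (H4 𝕜 * Aᴴ * H4 𝕜) := by simp only [mul_assoc]
      _ = H4 𝕜 * A := by rw [hA]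
  have t00 : (Aᴴ * H4 𝕜) 0 0 = (H4 𝕜 * A) 0 0 := by rw [hA']
  have t10 : (Aᴴ * H4 𝕜) 1 0 = (H4 𝕜 * A) 1 0 := by rw [hA']
  rw [Matrix.mul_apply, Matrix.mul_apply] at t00 t10
  simp [H4, Fin.sum_univ_four, Matrix.conjTranspose_apply] at t00 t10
  -- `star (A 0 0) = A 0 0`, `star (A 0 1) = A 1 0`
  have h1 : ((RCLike.re (A 0 0)) ^ 2 + ‖A 0 1‖ ^ 2 : ℝ) = -1 := by
    have h2 : A 0 0 * A 0 0 + A 0 1 * (starRingEnd 𝕜) (A 0 1) = -1 := by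
      rw [← s, ← t10]
    have h3 : A 0 0 = ((RCLike.re (A 0 0) : ℝ) : 𝕜) := (RCLike.conj_eq_iff_re.1 t00).symm
    rw [h3, RCLike.mul_conj] at h2
    have h4 : (((RCLike.re (A 0 0)) ^ 2 + ‖A 0 1‖ ^ 2 : ℝ) : 𝕜) = ((-1 : ℝ) : 𝕜) := by
      push_cast
      rw [pow_two ((RCLike.re (A 0 0) : ℝ) : 𝕜)]
      exact h2
    exact RCLike.ofReal_injective h4
  nlinarith [sq_nonneg (RCLike.re (A 0 0)), sq_nonneg ‖A 0 1‖]

/-- For `𝕜 = ℝ` and for `𝕜 = ℂ` there are an invertible Hermitian `H` and matrices `X`, `Y` with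
`Y ^ 2 = X^{[*]} X` and `ker Y = ker X` such that no `H`-selfadjoint `A` at all satisfies
`A ^ 2 = X^{[*]} X`; in particular none with `ker A = ker X`. -/
theorem result (𝕜 : Type) [RCLike 𝕜] :
    ∃ (n : ℕ) (H X Y : Matrix (Fin n) (Fin n) 𝕜), 1 ≤ n ∧ IsUnit H ∧ Hᴴ = H ∧
      Y ^ 2 = hAdj H X * X ∧ (∀ v : Fin n → 𝕜, Y *ᵥ v = 0 ↔ X *ᵥ v = 0) ∧
      ∀ A : Matrix (Fin n) (Fin n) 𝕜, IsHSelfadjoint H A → A ^ 2 ≠ hAdj H X * X := by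
  refine ⟨4, H4 𝕜, X4 𝕜, Y4 𝕜, by norm_num, ?_, H4_herm 𝕜, ?_, ?_, ?_⟩
  · exact IsUnit.of_mul_eq_one _ (H4_mul_self 𝕜)
  · rw [pow_two, Y4_sq, hAdj_X4]
  · intro v
    constructor
    · intro h
      rw [Y4_ker 𝕜 v h, Matrix.mulVec_zero]
    · intro h
      rw [X4_ker 𝕜 v h, Matrix.mulVec_zero]
  · intro A hA hsq
    rw [pow_two, hAdj_X4] at hsq
    exact no_root 𝕜 A hA hsq

end Pool.Agent.Results.MP_154e02_al.NoSelfadjointRoot
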